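import Mathlib
import Pool.Agent.Run7.h533.AC.Newton
import Pool.Agent.Results.MP_eba1ef_gt.AllConvexBodies

set_option autoImplicit false

/-!
# MP_54d165_co: the largest Newton covering number is at most `2^d` times a polynomial factor

Let `N*(C)` be the Newton covering number of a convex body `C` in `ℝ^d`, and `M(d)` its maximum over
all convex bodies. For every `d ≥ 2` and every convex body `C` in `ℝ^d`
`N*(C) ≤ 3 · 2^d · d · log(2d² + 2d + 1)`.
So `M(d)` is at most this number, and for every `b > 2` one has `M(d) < b^d` for all large `d`.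
(The hand-in `ExponentialGrowth` has `M(d) ≤ 7^d`.)

The proof: translates of the interior of `C` which cover `C` also cover a neighbourhood of `C`, and
few of them suffice by the theorem `AllConvexBodies` of the problem `MP_eba1ef_gt`.
-/

namespace Pool.Agent.Results.MP_54d165_co.AtMostTwoToTheDimension

open Set Metric Filter Topology
open Pool.Agent.Helper2.NewtonCover

/-- **Main theorem.** -/
theorem result :
    -- the bound for every convex body
    (∀ d : ℕ, 2 ≤ d → ∀ C : Set (E d), IsBody C →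
      (newton C : ℝ) ≤ 3 * 2 ^ d * (d * Real.log (2 * d ^ 2 + 2 * d + 1))) ∧
    -- the bound for the maximum `M(d)`
    (∀ b : ℝ, 2 < b → ∃ d₀ : ℕ, ∀ d : ℕ, d₀ ≤ d → ∀ M : ℕ,
      IsGreatest {m : ℕ | ∃ C : Set (E d), IsBody C ∧ newton C = m} M → (M : ℝ) < b ^ d) := by
  have h1 : ∀ d : ℕ, 2 ≤ d → ∀ C : Set (E d), IsBody C →
      (newton C : ℝ) ≤ 3 * 2 ^ d * (d * Real.log (2 * d ^ 2 + 2 * d + 1)) := by
    intro d hd C hC
    obtain ⟨T, hT, hTc⟩ := Pool.Agent.Results.MP_eba1ef_gt.AllConvexBodies.result d hd C hC.1 hC.2.1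
      hC.2.2
    have h2 : (newton C : ℝ) ≤ T.card := by
      exact_mod_cast Pool.Agent.Run7.h533.AC.newton_le hT
    exact h2.trans hTc
  refine ⟨h1, fun b hb => ?_⟩
  -- `log x ≤ x`, so the factor is at most `3 d (2 d² + 2 d + 1) ≤ 15 d³`
  have hr : 1 < b / 2 := by linarith
  have h3 : Tendsto (fun d : ℕ => ((d : ℝ) ^ 3) / (b / 2) ^ d) atTop (𝓝 0) :=
    tendsto_pow_const_div_const_pow_of_one_lt 3 hr
  obtain ⟨d₀, h4⟩ := Filter.eventually_atTop.mp
    (h3.eventually (gt_mem_nhds (show (0 : ℝ) < 1 / 15 by norm_num)))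
  refine ⟨d₀ + 2, fun d hd M hM => ?_⟩
  obtain ⟨C, hC, rfl⟩ := hM.1
  have hd1 : (1 : ℝ) ≤ d := by
    have : 1 ≤ d := by omega
    exact_mod_cast this
  have h5 := h4 d (by omega)
  have hpos : (0 : ℝ) < (b / 2) ^ d := by positivity
  rw [div_lt_iff₀ hpos] at h5
  have hlog : Real.log (2 * (d : ℝ) ^ 2 + 2 * d + 1) ≤ 5 * (d : ℝ) ^ 2 := by
    have e1 : Real.log (2 * (d : ℝ) ^ 2 + 2 * d + 1) ≤ 2 * (d : ℝ) ^ 2 + 2 * d + 1 := by
      have := Real.log_le_sub_one_of_pos (show (0 : ℝ) < 2 * (d : ℝ) ^ 2 + 2 * d + 1 by positivity)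
      linarith
    have e2 : 2 * (d : ℝ) ^ 2 + 2 * d + 1 ≤ 5 * (d : ℝ) ^ 2 := by nlinarith
    exact e1.trans e2
  calc (newton C : ℝ) ≤ 3 * 2 ^ d * (d * Real.log (2 * d ^ 2 + 2 * d + 1)) :=
        h1 d (by omega) C hC
    _ ≤ 3 * 2 ^ d * (d * (5 * (d : ℝ) ^ 2)) := by gcongr
    _ = 15 * (d : ℝ) ^ 3 * 2 ^ d := by ring
    _ < (b / 2) ^ d * 2 ^ d := by
        apply mul_lt_mul_of_pos_right _ (by positivity)
        linarith
    _ = b ^ d := by
        rw [← mul_pow]
        congr 1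
        ring

end Pool.Agent.Results.MP_54d165_co.AtMostTwoToTheDimension
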