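import Mathlib
import Pool.Agent.Run7.h533.AC.Newton
import Pool.Agent.Results.MP_eba1ef_gt.BoundedDistanceToBall

set_option autoImplicit false

/-!
# MP_54d165_co: the Newton covering number of convex bodies at a bounded distance from the ball

Let `N*(C)` be the Newton covering number of a convex body `C` in `ℝ^d`. No symmetry is assumed.

For every `D` there are `q < 2` and `d₀` such that `N*(C) ≤ q^d` if `d ≥ d₀` and `C` contains a ball
of radius `r` and lies in a ball of radius `D r`. The same holds for every `C` between a translate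
of `S` and a translate of `D S`, where `S` is a symmetric convex body every `n` points of which have
a signed sum in `(1-δ) n S`; here `q` and `d₀` depend only on `n, δ, D`. (For all convex bodies the
bound is `2^d` times a polynomial factor, see `AtMostTwoToTheDimension`. So if the growth rate of the
maximum `M(d)` is `2^d` then none of these bodies attains the maximum in high dimension.)

The proof: the coverings by translates of the interior in the hand-in `BoundedDistanceToBall` of the
problem `MP_eba1ef_gt`.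
-/

namespace Pool.Agent.Results.MP_54d165_co.BoundedDistanceFromBall

open Set Metric
open scoped Pointwise
open Pool.Agent.Helper2.NewtonCover
open Pool.Agent.Results.MP_eba1ef_gt.BoundedDistanceToBall (NoEllOne SumsCovered)

theorem newton_of_sums {d : ℕ} {C : Set (EuclideanSpace ℝ (Fin d))} {N : ℝ} (h : SumsCovered N C) :
    (newton C : ℝ) ≤ N := by
  obtain ⟨-, T, hTc, hT⟩ := h {0} (convex_singleton 0) isCompact_singleton
    (Set.singleton_nonempty 0)
  rw [Set.singleton_zero, add_zero] at hT
  have h2 : (newton C : ℝ) ≤ T.card := by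
    exact_mod_cast Pool.Agent.Run7.h533.AC.newton_le hT
  exact h2.trans hTc

/-- **Main theorem.** -/
theorem result :
    -- bounded distance from the Euclidean ball
    (∀ D : ℝ, ∃ q : ℝ, 0 < q ∧ q < 2 ∧ ∃ d₀ : ℕ, ∀ d : ℕ, d₀ ≤ d →
      ∀ (C : Set (E d)) (o p : E d) (r : ℝ), IsBody C → 0 < r → closedBall o r ⊆ C →
        C ⊆ closedBall p (D * r) → (newton C : ℝ) ≤ q ^ d) ∧
    -- bounded distance from a symmetric body without almost isometric copies of `ℓ₁ⁿ`
    (∀ (n : ℕ) (δ D : ℝ), 1 ≤ n → 0 < δ → δ ≤ 1 → 0 ≤ D →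
      ∃ q : ℝ, 0 < q ∧ q < 2 ∧ ∃ d₀ : ℕ, ∀ d : ℕ, d₀ ≤ d →
      ∀ (S C : Set (E d)) (o p : E d), NoEllOne n δ S → IsBody C → (∀ u ∈ S, o + u ∈ C) →
        (∀ x ∈ C, ∃ u ∈ S, x = p + D • u) → (newton C : ℝ) ≤ q ^ d) := by
  obtain ⟨-, h2, h3, -, -⟩ := Pool.Agent.Results.MP_eba1ef_gt.BoundedDistanceToBall.result
  refine ⟨fun D => ?_, fun n δ D hn hδ0 hδ1 hD => ?_⟩
  · obtain ⟨q, hq0, hq2, d₀, h⟩ := h2 D
    exact ⟨q, hq0, hq2, d₀, fun d hd C o p r hC hr h1 h4 =>
      newton_of_sums (h d hd C o p r hC hr h1 h4)⟩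
  · obtain ⟨q, hq0, hq2, d₀, h⟩ := h3 n δ D hn hδ0 hδ1 hD
    exact ⟨q, hq0, hq2, d₀, fun d hd S C o p hS hC h1 h4 =>
      newton_of_sums (h d hd S C o p hS hC h1 h4)⟩

end Pool.Agent.Results.MP_54d165_co.BoundedDistanceFromBall
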